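import Pool.Agent.H25.DP.Targets
import Pool.Agent.H25.DL.CO

/-!
# Two dilations: module CO4 (the core: many bad heights)
-/

set_option autoImplicit false

open Complex MeasureTheory Set Filter Topology

namespace Pool.Agent.H74.DP

open Pool.Agent.H25.DL Pool.Agent.H25.DP

lemma ev_log_le {κ : ℝ} (hκ : 0 < κ) (c : ℝ) :
    ∀ᶠ T : ℝ in atTop, c * Real.log T ≤ T ^ κ := by
  have h1 := ((isLittleO_log_rpow_atTop hκ).const_mul_left c).bound zero_lt_one
  filter_upwards [h1, eventually_ge_atTop (0 : ℝ)] with T hT hT0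
  rw [one_mul, Real.norm_eq_abs, Real.norm_eq_abs, abs_of_nonneg (Real.rpow_nonneg hT0 _)] at hT
  exact (le_abs_self _).trans hT

lemma ev_log_pow_le {c : ℝ} (hc : 0 < c) (a b : ℝ) :
    ∀ᶠ T : ℝ in atTop, a * Real.log T ^ b ≤ T ^ c := by
  have h1 := ((isLittleO_log_rpow_rpow_atTop b hc).const_mul_left a).bound zero_lt_one
  filter_upwards [h1, eventually_ge_atTop (0 : ℝ)] with T hT hT0
  rw [one_mul, Real.norm_eq_abs, Real.norm_eq_abs, abs_of_nonneg (Real.rpow_nonneg hT0 _)] at hT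
  exact (le_abs_self _).trans hT

lemma hasDerivAt_omPrim (x : ℝ) :
    HasDerivAt (fun x : ℝ => 64 * (x ^ 4 / 4 - 3 * x ^ 5 / 5 + x ^ 6 / 2 - x ^ 7 / 7)) (om x) x := by
  have h4 := (hasDerivAt_pow 4 x).div_const 4
  have h5 := ((hasDerivAt_pow 5 x).const_mul 3).div_const 5
  have h6 := (hasDerivAt_pow 6 x).div_const 2
  have h7 := (hasDerivAt_pow 7 x).div_const 7
  refine ((((h4.sub h5).add h6).sub h7).const_mul 64).congr_deriv ?_
  unfold om
  norm_num
  ring

lemma integral_om_window (H W : ℝ) (hW : 0 < W) :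
    ∫ u in H..(H + W), om ((u - H) / W) = 16 / 35 * W := by
  have h1 : ∀ u : ℝ, HasDerivAt (fun u : ℝ => W * (64 * (((u - H) / W) ^ 4 / 4 -
      3 * ((u - H) / W) ^ 5 / 5 + ((u - H) / W) ^ 6 / 2 - ((u - H) / W) ^ 7 / 7)))
      (om ((u - H) / W)) u := by
    intro u
    have h2 : HasDerivAt (fun u : ℝ => (u - H) / W) (1 / W) u :=
      ((hasDerivAt_id u).sub_const H).div_const W
    have h3 := ((hasDerivAt_omPrim ((u - H) / W)).comp u h2).const_mul W
    refine h3.congr_deriv ?_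
    field_simp
  rw [intervalIntegral.integral_eq_sub_of_hasDerivAt fun u _ => h1 u]
  · have h4 : (H + W - H) / W = 1 := by rw [show H + W - H = W by ring, div_self hW.ne']
    have h5 : (H - H) / W = 0 := by simp
    rw [h4, h5]
    norm_num
    ring
  · exact (continuous_om.comp (by fun_prop)).intervalIntegrable _ _

variable {ι : Type} [Fintype ι]

/-- (CO4) -/
theorem co4 (h1 : T_BD2) (h2 : T_RED) (hLE : T_LE) (hEX : T_EX) (hSH : T_SH) (hCN : T_CN) :
    T_CO4 := by
  intro ι _ f Y d t₀ a b μ κ ε w hP hd hμ ha hb hr hrab hκ hWin hAV hε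
  obtain ⟨D₁, hdD₁, hAV⟩ := hAV
  obtain ⟨D₂, c, hdD₂, hc, hBD⟩ := h1 ι f Y d t₀ a b μ ε hP hμ ha hb hd hε hr hrab
  obtain ⟨D, hD⟩ : ∃ D : ℝ, D = (d + min D₁ D₂) / 2 := ⟨_, rfl⟩
  have hmin : d < min D₁ D₂ := lt_min hdD₁ hdD₂
  have hdD : d < D := by linarith
  have hDm : D < min D₁ D₂ := by linarith
  have hDD₁ : D < D₁ := hDm.trans_le (min_le_left _ _)
  have hDD₂ : D < D₂ := hDm.trans_le (min_le_right _ _)
  have hD0 : 0 < D := by linarith
  obtain ⟨β₁, hβ₁, hLE⟩ := hLE ι f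
  obtain ⟨β₂, hβ₂, hEX⟩ := hEX ι f Y d t₀ μ D hd hdD hμ hr hP
  refine ⟨max β₁ β₂, lt_max_of_lt_left hβ₁, fun β hβ C => ?_⟩
  have hβ0 : 0 < β := hβ₁.trans_le ((le_max_left _ _).trans hβ)
  obtain ⟨R₀, hLE⟩ := hLE β ((le_max_left _ _).trans hβ)
  obtain ⟨T₃, hEX⟩ := hEX β ((le_max_right _ _).trans hβ)
  obtain ⟨T₄, hSH⟩ := hSH ι f Y β C hβ0
  obtain ⟨T₁, hAV⟩ := hAV D hdD hDD₁
  obtain ⟨T₂, hBD⟩ := hBD β hβ0 D hdD hDD₂
  obtain ⟨T₅, hRED⟩ := h2 ι f Y d t₀ β hβ0 hP
  obtain ⟨C₃, hC₃, hCN⟩ := hCN ι f μ D hD0 hμ hr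
  -- large T
  have hlog := Real.tendsto_log_atTop
  have hTlog : ∀ᶠ T : ℝ in atTop, t₀ + Real.log T ≤ T := by
    have h1 : (fun T : ℝ => t₀ + Real.log T) =o[atTop] fun T : ℝ => T := by
      refine Asymptotics.IsLittleO.add ?_ Real.isLittleO_log_id_atTop
      exact Asymptotics.isLittleO_const_left.2 (Or.inr (tendsto_norm_atTop_atTop))
    have h2 := h1.bound zero_lt_one
    filter_upwards [h2, eventually_ge_atTop (0 : ℝ)] with T hT hT0
    rw [one_mul, Real.norm_eq_abs, Real.norm_eq_abs, abs_of_nonneg hT0] at hT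
    exact (le_abs_self _).trans hT
  have hpow : ∀ᶠ T : ℝ in atTop, 100 ≤ T ^ ε := (tendsto_rpow_atTop hε).eventually_ge_atTop 100
  obtain ⟨T₆, hT₆⟩ := eventually_atTop.1 ((hlog.eventually_ge_atTop R₀).and
    ((ev_log_le hκ 1).and ((ev_log_pow_le hc (100 * C₃) C₃).and
    (hTlog.and (hpow.and ((eventually_ge_atTop T₁).and ((eventually_ge_atTop T₂).and
      ((eventually_ge_atTop T₃).and ((eventually_ge_atTop T₄).and ((eventually_ge_atTop T₅).and
        (eventually_ge_atTop 3)))))))))))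
  refine ⟨T₆, fun T hT H W hw G hGm hG hclean => ?_⟩
  obtain ⟨hR₀, hlκ, hlc, hTl, hpow2, hT1, hT2, hT3, hT4, hT5, hT33⟩ := hT₆ T hT
  have hT0 : 0 < T := by linarith
  obtain ⟨hTH, hHW, hW⟩ := hWin T H W hw
  have hTκ : 0 < T ^ κ := Real.rpow_pos_of_pos hT0 _
  have hW0 : 0 < W := hTκ.trans_le hW
  have hlogW : Real.log T ≤ W := by linarith
  have hsubI : Icc H (H + W) ⊆ Icc T (2 * T) := Icc_subset_Icc hTH hHW
  have hlog0 : 0 ≤ Real.log T := Real.log_nonneg (by linarith)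
  obtain ⟨S, hS⟩ : ∃ S : ℝ → ℂ, S = fun u => ∑ j ∈ mains f μ D T, KJ f Y β (Real.log T) j u :=
    ⟨_, rfl⟩
  -- the real part on G
  have hre : ∀ u ∈ G, 1 / 4 ≤ (S u).re := by
    intro u hu
    have h1 := hLE (Real.log T) hR₀ u
    have h2 := hEX T hT3 u (hsubI (hG hu))
    have h3 := hSH T hT4 u (hsubI (hG hu)) (hclean u hu)
    have h4 : ‖S u - 1‖ ≤ 3 / 4 := by
      have e : S u - 1 =
          -(KK f Y β (Real.log T) u - ∑ j ∈ mains f μ D T, KJ f Y β (Real.log T) j u) +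
          (KK f Y β (Real.log T) u - LL f β (Real.log T) u) + (LL f β (Real.log T) u - 1) := by
        rw [hS]; ring
      rw [e]
      refine (norm_add_le _ _).trans ?_
      have h5 := norm_add_le
        (-(KK f Y β (Real.log T) u - ∑ j ∈ mains f μ D T, KJ f Y β (Real.log T) j u))
        (KK f Y β (Real.log T) u - LL f β (Real.log T) u)
      rw [norm_neg] at h5
      linarith
    have h5 := (abs_re_le_norm (S u - 1)).trans h4
    rw [sub_re, one_re, abs_le] at h5
    linarith [h5.1]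
  -- continuity
  have hcont : ∀ j : ι → ℕ, ContinuousOn (KJ f Y β (Real.log T) j) (Icc H (H + W)) := fun j =>
    (continuousOn_KJ f hP β (Real.log T) hlog0 j).mono fun u hu =>
      mem_Ici.2 (hTl.trans (hTH.trans hu.1))
  have hScont : ContinuousOn S (Icc H (H + W)) := by
    rw [hS]
    exact continuousOn_finsetSum _ fun j _ => hcont j
  have hSint : IntegrableOn S (Icc H (H + W)) := hScont.integrableOn_Icc
  obtain ⟨g, hg⟩ : ∃ g : ℝ → ℝ, g = fun u => om ((u - H) / W) := ⟨_, rfl⟩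
  have hgc : Continuous g := by rw [hg]; exact continuous_om.comp (by fun_prop)
  have hg0 : ∀ u ∈ Icc H (H + W), 0 ≤ g u ∧ g u ≤ 1 := by
    intro u hu
    have h1 : 0 ≤ (u - H) / W := div_nonneg (by linarith [hu.1]) hW0.le
    have h2 : (u - H) / W ≤ 1 := by
      rw [div_le_one hW0]
      linarith [hu.2]
    rw [hg]
    exact ⟨om_nonneg h1 h2, om_le_one h1 h2⟩
  have hgint : IntegrableOn g (Icc H (H + W)) := hgc.continuousOn.integrableOn_Icc
  have hgSc : ContinuousOn (fun u => (g u : ℂ) * S u) (Icc H (H + W)) :=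
    (Complex.continuous_ofReal.comp hgc).continuousOn.mul hScont
  have hgSint : IntegrableOn (fun u => (g u : ℂ) * S u) (Icc H (H + W)) := hgSc.integrableOn_Icc
  obtain ⟨E, hE⟩ : ∃ E : Set ℝ, E = Icc H (H + W) \ G := ⟨_, rfl⟩
  have hEm : MeasurableSet E := by rw [hE]; exact measurableSet_Icc.diff hGm
  have hEs : E ⊆ Icc H (H + W) := by rw [hE]; exact sdiff_subset
  rw [← hE]
  by_contra hcon
  push Not at hcon
  have hfin : volume (Icc H (H + W)) ≠ ⊤ := by rw [Real.volume_Icc]; exact ENNReal.ofReal_ne_top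
  have hpos : 0 < T ^ (-ε) := Real.rpow_pos_of_pos hT0 _
  have hE100 : volume.real E ≤ W / 100 := by
    have h3 : T ^ (-ε) ≤ 1 / 100 := by
      rw [Real.rpow_neg hT0.le, inv_eq_one_div]
      exact one_div_le_one_div_of_le (by norm_num) hpow2
    calc volume.real E ≤ T ^ (-ε) * min W (W ^ 2 * T ^ (-(d / μ))) := hcon.le
      _ ≤ T ^ (-ε) * W := mul_le_mul_of_nonneg_left (min_le_left _ _) hpos.le
      _ ≤ 1 / 100 * W := mul_le_mul_of_nonneg_right h3 hW0.le
      _ = W / 100 := by ring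
  -- the union
  have hUn : Icc H (H + W) = G ∪ E := by rw [hE, union_sdiff_cancel hG]
  have hdisj : Disjoint G E := by rw [hE]; exact disjoint_sdiff_right
  -- the integral of the weight over G
  have hgG : 16 / 35 * W - W / 100 ≤ ∫ u in G, g u := by
    have h3 : ∫ u in G ∪ E, g u = (∫ u in G, g u) + ∫ u in E, g u :=
      setIntegral_union hdisj hEm (hgint.mono_set hG) (hgint.mono_set hEs)
    have h4 : ∫ u in Icc H (H + W), g u = 16 / 35 * W := by
      rw [integral_Icc_eq_integral_Ioc, ← intervalIntegral.integral_of_le (by linarith), hg]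
      exact integral_om_window H W hW0
    rw [← hUn, h4] at h3
    have h5 : ∫ u in E, g u ≤ ∫ _ in E, (1 : ℝ) := by
      refine setIntegral_mono_on (hgint.mono_set hEs) ?_ hEm fun u hu => (hg0 u (hEs hu)).2
      exact integrableOn_const (ne_of_lt ((measure_mono hEs).trans_lt (lt_top_iff_ne_top.2 hfin)))
    rw [setIntegral_const, smul_eq_mul, mul_one] at h5
    linarith
  -- real part over G
  have hI1 : (16 / 35 * W - W / 100) / 4 ≤ (∫ u in G, (g u : ℂ) * S u).re := by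
    have h3 : (∫ u in G, (g u : ℂ) * S u).re = ∫ u in G, ((g u : ℂ) * S u).re := by
      have := integral_re (𝕜 := ℂ) (hgSint.mono_set hG)
      simpa using this.symm
    rw [h3]
    have h4 : ∫ u in G, g u * (1 / 4) ≤ ∫ u in G, ((g u : ℂ) * S u).re := by
      refine setIntegral_mono_on ((hgint.mono_set hG).mul_const _) (hgSint.mono_set hG).re hGm
        fun u hu => ?_
      rw [Complex.re_ofReal_mul]
      exact mul_le_mul_of_nonneg_left (hre u hu) (hg0 u (hG hu)).1
    rw [integral_mul_const] at h4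
    linarith
  -- the integral over the whole window
  have hI2 : ‖∫ u in Icc H (H + W), (g u : ℂ) * S u‖ ≤ W / 100 := by
    have h3 := hRED T hT5 (mains f μ D T) H W (W / 100) hTH hW0 hHW (hAV T hT1 H W hw)
    rw [intervalIntegral.integral_of_le (by linarith), ← integral_Icc_eq_integral_Ioc] at h3
    rw [hS, hg]
    exact h3
  -- the integral over E
  have hI3 : ‖∫ u in E, (g u : ℂ) * S u‖ ≤ W / 100 := by
    have h3 : ‖∫ u in E, (g u : ℂ) * S u‖ ≤ ∫ u in E, ∑ j ∈ mains f μ D T,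
        ‖KJ f Y β (Real.log T) j u‖ := by
      refine (norm_integral_le_integral_norm _).trans ?_
      refine setIntegral_mono_on (hgSint.mono_set hEs).norm ?_ hEm fun u hu => ?_
      · exact integrable_finsetSum _ fun j _ => ((hcont j).integrableOn_Icc.mono_set hEs).norm
      · have h4 := hg0 u (hEs hu)
        rw [norm_mul, Complex.norm_real, Real.norm_eq_abs, abs_of_nonneg h4.1, hS]
        calc g u * ‖∑ j ∈ mains f μ D T, KJ f Y β (Real.log T) j u‖
            ≤ 1 * ∑ j ∈ mains f μ D T, ‖KJ f Y β (Real.log T) j u‖ :=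
              mul_le_mul h4.2 (norm_sum_le _ _) (norm_nonneg _) zero_le_one
          _ = _ := one_mul _
    refine h3.trans ?_
    rw [integral_finsetSum _ fun j _ => ((hcont j).integrableOn_Icc.mono_set hEs).norm]
    obtain ⟨hcard, _⟩ := hCN T hT33
    have hTc : 0 < T ^ (-c) := Real.rpow_pos_of_pos hT0 _
    calc ∑ j ∈ mains f μ D T, ∫ u in E, ‖KJ f Y β (Real.log T) j u‖
        ≤ ∑ j ∈ mains f μ D T, W * T ^ (-c) :=
          Finset.sum_le_sum fun j hj => hBD T hT2 j hj H W hTH hlogW hHW E hEm hEs hcon.le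
      _ = ((mains f μ D T).card : ℝ) * (W * T ^ (-c)) := by rw [Finset.sum_const, nsmul_eq_mul]
      _ ≤ (C₃ * Real.log T ^ C₃) * (W * T ^ (-c)) := by gcongr
      _ = W * T ^ (-c) / 100 * (100 * C₃ * Real.log T ^ C₃) := by ring
      _ ≤ W * T ^ (-c) / 100 * T ^ c := by gcongr
      _ = W / 100 * (T ^ (-c) * T ^ c) := by ring
      _ = W / 100 := by rw [← Real.rpow_add hT0]; simp
  have hI4 : ∫ u in G, (g u : ℂ) * S u = (∫ u in Icc H (H + W), (g u : ℂ) * S u) -
      ∫ u in E, (g u : ℂ) * S u := by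
    have h3 : ∫ u in G ∪ E, (g u : ℂ) * S u = (∫ u in G, (g u : ℂ) * S u) +
        ∫ u in E, (g u : ℂ) * S u :=
      setIntegral_union hdisj hEm (hgSint.mono_set hG) (hgSint.mono_set hEs)
    rw [hUn, h3]
    ring
  have hI5 : (16 / 35 * W - W / 100) / 4 ≤ W / 100 + W / 100 := by
    refine hI1.trans ((re_le_norm _).trans ?_)
    rw [hI4]
    exact (norm_sub_le _ _).trans (add_le_add hI2 hI3)
  linarith

end Pool.Agent.H74.DP
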