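import Pool.Agent.H25.DP.Targets
import Pool.Agent.H25.DL.CO
import Pool.Agent.H92.DL.FU

/-!
# Two dilations: module XP
-/

set_option autoImplicit false

open Complex MeasureTheory Set Filter Topology

namespace Pool.Agent.H74.DP

open Pool.Agent.H25.DL Pool.Agent.H25.DP

lemma log_le_half {T : ℝ} (hT : 0 < T) : Real.log T ≤ T / 2 := by
  have h1 := Real.log_le_sub_one_of_pos (show 0 < T / 2 by linarith)
  rw [Real.log_div hT.ne' two_ne_zero] at h1
  have h2 := Real.log_two_lt_d9
  linarith

lemma cexp_phs (d B η a b v : ℝ) (n m : ℕ) :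
    cexp ((phs d B η (a * Real.log n + b * Real.log m) v : ℝ) * I) =
      cexp ((d * v * Real.log v + B * v + η * Real.log v : ℝ) * I) *
        (en n (a * v) * en m (b * v)) := by
  unfold phs en
  rw [← Complex.exp_add, ← Complex.exp_add]
  congr 1
  push_cast
  ring

lemma norm_Pj_le {ι : Type} [Fintype ι] (f : ι → Fac) (j : ι → ℕ) (t : ℝ) :
    ‖Pj f j (1 / 2 + t * I)‖ ≤ Real.sqrt (SZ j) := by
  classical
  rw [Pool.Agent.H92.DL.Pj_eq, sqrt_SZ]
  refine (norm_sum_le _ _).trans ((Finset.sum_le_sum fun x _ => ?_).trans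
    (Pool.Agent.H92.DL.coef_sum f j))
  rw [norm_mul, Complex.norm_exp_ofReal_mul_I, mul_one]

lemma sum_phs (d B η a b v : ℝ) (c c' : ℕ → ℂ) (S S' : Finset ℕ) :
    ∑ n ∈ S, ∑ m ∈ S', c n * c' m *
      cexp ((phs d B η (a * Real.log n + b * Real.log m) v : ℝ) * I) =
    cexp ((d * v * Real.log v + B * v + η * Real.log v : ℝ) * I) *
      ((∑ n ∈ S, c n * en n (a * v)) * ∑ m ∈ S', c' m * en m (b * v)) := by
  rw [Finset.sum_mul_sum, Finset.mul_sum]
  refine Finset.sum_congr rfl fun n _ => ?_
  rw [Finset.mul_sum]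
  refine Finset.sum_congr rfl fun m _ => ?_
  rw [cexp_phs]
  ring

lemma continuousOn_phs (d B η L y H W : ℝ) (hpos : ∀ u ∈ Icc H (H + W), 0 < u + y) :
    ContinuousOn (fun u : ℝ => cexp ((phs d B η L (u + y) : ℝ) * I)) (Icc H (H + W)) := by
  have h1 : ContinuousOn (fun u : ℝ => Real.log (u + y)) (Icc H (H + W)) := by
    refine ContinuousOn.log (by fun_prop) fun u hu => (hpos u hu).ne'
  have h2 : ContinuousOn (fun u : ℝ => phs d B η L (u + y)) (Icc H (H + W)) := by
    unfold phs
    have h3 : ContinuousOn (fun u : ℝ => d * (u + y)) (Icc H (H + W)) := by fun_prop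
    have h4 : ContinuousOn (fun u : ℝ => B * (u + y)) (Icc H (H + W)) := by fun_prop
    have h5 : ContinuousOn (fun u : ℝ => (u + y) * L) (Icc H (H + W)) := by fun_prop
    exact (((h3.mul h1).add h4).add (continuousOn_const.mul h1)).sub h5
  exact Complex.continuous_exp.comp_continuousOn
    ((Complex.continuous_ofReal.comp_continuousOn h2).mul continuousOn_const)

/-- (XP) -/
theorem xp : T_XP := by
  intro ι _ f Y d B η t₀ C κ hdiff hY
  refine ⟨2 * |C| + 1, max (2 * t₀) 1, by positivity, fun T hT j N M K a b c c' hN hM hfac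
    H W y hH hW hHW hy => ?_⟩
  have hT1 : 1 ≤ T := (le_max_right _ _).trans hT
  have hTt : 2 * t₀ ≤ T := (le_max_left _ _).trans hT
  have hT0 : 0 < T := by linarith
  have hlog := log_le_half hT0
  have hv : ∀ u ∈ Icc H (H + W), T / 2 ≤ u + y := by
    intro u hu
    have := (abs_le.1 hy).1
    have := hu.1
    linarith
  have hpos : ∀ u ∈ Icc H (H + W), 0 < u + y := fun u hu => by
    have := hv u hu
    linarith
  have hom : Continuous fun u : ℝ => (om ((u - H) / W) : ℂ) :=
    Complex.continuous_ofReal.comp (continuous_om.comp (by fun_prop))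
  have hHW' : H ≤ H + W := by linarith
  have hIcc : uIcc H (H + W) = Icc H (H + W) := uIcc_of_le hHW'
  -- the double sum as one integral
  have hsum : κ * ∑ n ∈ Finset.Ico N (K * N), ∑ m ∈ Finset.Ico M (K * M),
      c n * c' m * IO d B η H W y (a * Real.log n + b * Real.log m) =
      ∫ u in H..(H + W), (om ((u - H) / W) : ℂ) *
        (Pj f j (1 / 2 + (u + y : ℝ) * I) * (κ * cexp ((d * (u + y) * Real.log (u + y) +
          B * (u + y) + η * Real.log (u + y) : ℝ) * I))) := by
    have h1 : ∀ u : ℝ, (om ((u - H) / W) : ℂ) *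
        (Pj f j (1 / 2 + (u + y : ℝ) * I) * (κ * cexp ((d * (u + y) * Real.log (u + y) +
          B * (u + y) + η * Real.log (u + y) : ℝ) * I))) =
        κ * ∑ n ∈ Finset.Ico N (K * N), ∑ m ∈ Finset.Ico M (K * M),
          c n * c' m * ((om ((u - H) / W) : ℂ) *
            cexp ((phs d B η (a * Real.log n + b * Real.log m) (u + y) : ℝ) * I)) := by
      intro u
      have h2 := sum_phs d B η a b (u + y) c c' (Finset.Ico N (K * N)) (Finset.Ico M (K * M))
      rw [← hfac (u + y)] at h2
      have h3 : ∑ n ∈ Finset.Ico N (K * N), ∑ m ∈ Finset.Ico M (K * M),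
          c n * c' m * ((om ((u - H) / W) : ℂ) *
            cexp ((phs d B η (a * Real.log n + b * Real.log m) (u + y) : ℝ) * I)) =
          (om ((u - H) / W) : ℂ) * ∑ n ∈ Finset.Ico N (K * N), ∑ m ∈ Finset.Ico M (K * M),
            c n * c' m * cexp ((phs d B η (a * Real.log n + b * Real.log m) (u + y) : ℝ) * I) := by
        rw [Finset.mul_sum]
        refine Finset.sum_congr rfl fun n _ => ?_
        rw [Finset.mul_sum]
        refine Finset.sum_congr rfl fun m _ => ?_
        ring
      rw [h3, h2]
      ring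
    simp_rw [h1]
    rw [intervalIntegral.integral_const_mul]
    have hint : ∀ n m : ℕ, IntervalIntegrable (fun u : ℝ => c n * c' m *
        ((om ((u - H) / W) : ℂ) *
          cexp ((phs d B η (a * Real.log n + b * Real.log m) (u + y) : ℝ) * I))) volume
        H (H + W) := by
      intro n m
      refine ContinuousOn.intervalIntegrable ?_
      rw [hIcc]
      exact continuousOn_const.mul (hom.continuousOn.mul (continuousOn_phs _ _ _ _ _ _ _ hpos))
    rw [intervalIntegral.integral_finsetSum]
    · congr 1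
      refine Finset.sum_congr rfl fun n _ => ?_
      rw [intervalIntegral.integral_finsetSum]
      · refine Finset.sum_congr rfl fun m _ => ?_
        rw [intervalIntegral.integral_const_mul]
        rfl
      · intro m _
        exact hint n m
    · intro n _
      refine ContinuousOn.intervalIntegrable ?_
      rw [hIcc]
      exact continuousOn_finsetSum _ fun m _ =>
        continuousOn_const.mul (hom.continuousOn.mul (continuousOn_phs _ _ _ _ _ _ _ hpos))
  rw [hsum, AV]
  have hPj : Continuous fun u : ℝ => Pj f j (1 / 2 + (u + y : ℝ) * I) :=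
    (continuous_Pj f j).comp (by fun_prop)
  have hYc : ContinuousOn (fun u : ℝ => Y (1 / 2 + (u + y : ℝ) * I)) (Icc H (H + W)) := by
    intro u hu
    have h1 : ContinuousAt Y (1 / 2 + (u + y : ℝ) * I) := by
      refine (hdiff _ ?_).continuousAt
      have := hv u hu
      simp
      linarith
    have h2 : Continuous fun u : ℝ => ((1 / 2 : ℂ) + ((u + y : ℝ) : ℂ) * I) := by fun_prop
    exact (ContinuousAt.comp (f := fun u : ℝ => ((1 / 2 : ℂ) + ((u + y : ℝ) : ℂ) * I)) (g := Y)
      h1 h2.continuousAt).continuousWithinAt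
  have hEc : ContinuousOn (fun u : ℝ => cexp ((d * (u + y) * Real.log (u + y) +
          B * (u + y) + η * Real.log (u + y) : ℝ) * I)) (Icc H (H + W)) := by
    have h1 := continuousOn_phs d B η 0 y H W hpos
    refine h1.congr fun u _ => ?_
    simp only [phs, mul_zero, sub_zero]
  rw [← intervalIntegral.integral_sub]
  · have hbound : ∀ u ∈ uIoc H (H + W), ‖(om ((u - H) / W) : ℂ) *
        (Pj f j (1 / 2 + (u + y : ℝ) * I) * Y (1 / 2 + (u + y : ℝ) * I)) -
        (om ((u - H) / W) : ℂ) *
        (Pj f j (1 / 2 + (u + y : ℝ) * I) * (κ * cexp ((d * (u + y) * Real.log (u + y) +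
          B * (u + y) + η * Real.log (u + y) : ℝ) * I)))‖ ≤
        Real.sqrt (SZ j) * (2 * |C| / T) := by
      intro u hu
      rw [uIoc_of_le hHW'] at hu
      have huI : u ∈ Icc H (H + W) := ⟨hu.1.le, hu.2⟩
      have h1 : (om ((u - H) / W) : ℂ) *
          (Pj f j (1 / 2 + (u + y : ℝ) * I) * Y (1 / 2 + (u + y : ℝ) * I)) -
          (om ((u - H) / W) : ℂ) *
          (Pj f j (1 / 2 + (u + y : ℝ) * I) * (κ * cexp ((d * (u + y) * Real.log (u + y) +
            B * (u + y) + η * Real.log (u + y) : ℝ) * I))) =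
          (om ((u - H) / W) : ℂ) * (Pj f j (1 / 2 + (u + y : ℝ) * I) *
            (Y (1 / 2 + (u + y : ℝ) * I) - κ * cexp ((d * (u + y) * Real.log (u + y) +
            B * (u + y) + η * Real.log (u + y) : ℝ) * I))) := by ring
      rw [h1, norm_mul, norm_mul]
      have h2 : ‖(om ((u - H) / W) : ℂ)‖ ≤ 1 := by
        rw [Complex.norm_real, Real.norm_eq_abs]
        refine abs_om_le (div_nonneg (by linarith [huI.1]) hW.le) ?_
        rw [div_le_one hW]
        linarith [huI.2]
      have h3 := norm_Pj_le f j (u + y)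
      have hvu := hv u huI
      have h4 := hY (u + y) (by linarith)
      have h5 : C / (u + y) ≤ 2 * |C| / T := by
        rw [div_le_div_iff₀ (hpos u huI) hT0]
        have h6 := le_abs_self C
        have h7 := abs_nonneg C
        calc C * T ≤ |C| * T := by gcongr
          _ = 2 * |C| * (T / 2) := by ring
          _ ≤ 2 * |C| * (u + y) := by gcongr
      calc ‖(om ((u - H) / W) : ℂ)‖ * (‖Pj f j (1 / 2 + (u + y : ℝ) * I)‖ *
            ‖Y (1 / 2 + (u + y : ℝ) * I) - κ * cexp ((d * (u + y) * Real.log (u + y) +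
            B * (u + y) + η * Real.log (u + y) : ℝ) * I)‖)
          ≤ 1 * (Real.sqrt (SZ j) * (2 * |C| / T)) := by
            gcongr
            exact h4.trans h5
        _ = _ := one_mul _
    refine (intervalIntegral.norm_integral_le_of_norm_le_const hbound).trans ?_
    rw [show H + W - H = W by ring, abs_of_pos hW]
    have hs := Real.sqrt_nonneg (SZ j : ℝ)
    have h8 : Real.sqrt (SZ j) * (2 * |C| / T) * W = 2 * |C| * (W / T) * Real.sqrt (SZ j) := by
      ring
    rw [h8]
    have h9 : 0 ≤ W / T := by positivity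
    gcongr
    linarith
  · refine ContinuousOn.intervalIntegrable ?_
    rw [hIcc]
    exact hom.continuousOn.mul (hPj.continuousOn.mul hYc)
  · refine ContinuousOn.intervalIntegrable ?_
    rw [hIcc]
    exact hom.continuousOn.mul (hPj.continuousOn.mul (continuousOn_const.mul hEc))

end Pool.Agent.H74.DP
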